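import Mathlib
import Pool.Agent.W256.Growth
import Pool.Agent.Y787.GL.Curve6

/-!
# The Hilbert function of a tuple of elements of a space with the hyperplane property

The complex case is `Pool.Agent.TH379.HF`; this is the same proof for all the spaces with the hyperplane
property, in particular for the linear forms in `p`-adic logarithms.
-/

set_option autoImplicit false
set_option linter.unusedSectionVars false

namespace Pool.Agent.L7h6.PF

open Module
open Pool.Agent.Y787 (QC mem_QC HypC Lt_one)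
open Pool.Agent.W256 (growth_of)

variable {Cc : Type} [Field Cc] [CharZero Cc] [IsAlgClosed Cc] {Lt : Submodule (QC Cc) Cc} [HypC Lt]

theorem half_mul (v : ℕ) : v / 2 * v = v ^ 2 / 4 + v / 2 * (v / 2) := by
  rcases Nat.even_or_odd' v with ⟨k, rfl | rfl⟩
  · have h1 : 2 * k / 2 = k := by omega
    have h2 : (2 * k) ^ 2 / 4 = k * k := by
      rw [show (2 * k) ^ 2 = 4 * (k * k) by ring]; omega
    rw [h1, h2]; ring
  · have h1 : (2 * k + 1) / 2 = k := by omega
    have h2 : (2 * k + 1) ^ 2 / 4 = k * k + k := by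
      rw [show (2 * k + 1) ^ 2 = 4 * (k * k + k) + 1 by ring]; omega
    rw [h1, h2]; ring

theorem fd_mul (U V : Submodule (QC Cc) Cc) [FiniteDimensional (QC Cc) U] [FiniteDimensional (QC Cc) V] :
    FiniteDimensional (QC Cc) (U * V : Submodule (QC Cc) Cc) :=
  Module.Finite.iff_fg.mpr (Submodule.FG.mul (Module.Finite.iff_fg.mp inferInstance)
    (Module.Finite.iff_fg.mp inferInstance))

theorem fd_pow (V : Submodule (QC Cc) Cc) [FiniteDimensional (QC Cc) V] (m : ℕ) :
    FiniteDimensional (QC Cc) (V ^ m : Submodule (QC Cc) Cc) :=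
  Module.Finite.iff_fg.mpr (Submodule.FG.pow (Module.Finite.iff_fg.mp inferInstance) m)

/-- **Expansion.** Multiplication by a space of linear forms in logarithms. -/
theorem expand (U V : Submodule (QC Cc) Cc) [FiniteDimensional (QC Cc) U] [FiniteDimensional (QC Cc) V]
    (hV : V ≤ Lt) (hV0 : V ≠ ⊥) (h : finrank (QC Cc) V ≤ 2 * finrank (QC Cc) U + 1) :
    finrank (QC Cc) U + finrank (QC Cc) V ^ 2 / 4 ≤ finrank (QC Cc) (U * V : Submodule (QC Cc) Cc) := by
  have hac : IsAlgClosed (QC Cc) := (algebraicClosure.isAlgClosure ℚ Cc).isAlgClosed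
  have key := growth_of U V hV0 (finrank (QC Cc) V / 2) (by omega) (by
    intro Y hYX hYs
    have : FiniteDimensional (QC Cc) Y := Submodule.finiteDimensional_of_le hYX
    have := fd_mul Y V
    have h := Pool.Agent.Y787.GL.product_le (Lt := Lt) Y V (Y * V) hV
      (fun x hx w hw => Submodule.mul_mem_mul hx hw)
    rwa [hYs] at h)
  have h3 := half_mul (finrank (QC Cc) V)
  omega

theorem expand_pow (U V : Submodule (QC Cc) Cc) [FiniteDimensional (QC Cc) U] [FiniteDimensional (QC Cc) V]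
    (hV : V ≤ Lt) (hV0 : V ≠ ⊥) (h : finrank (QC Cc) V ≤ 2 * finrank (QC Cc) U + 1) (m : ℕ) :
    finrank (QC Cc) U + m * (finrank (QC Cc) V ^ 2 / 4) ≤ finrank (QC Cc) (U * V ^ m : Submodule (QC Cc) Cc) := by
  induction m with
  | zero => rw [pow_zero, mul_one]; omega
  | succ m ih =>
    have := fd_pow V m
    have := fd_mul U (V ^ m)
    have h2 : finrank (QC Cc) U ≤ finrank (QC Cc) (U * V ^ m : Submodule (QC Cc) Cc) :=
      le_trans (Nat.le_add_right _ _) ih
    have h1 := expand (U * V ^ m) V hV hV0 (by omega)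
    rw [mul_assoc, ← pow_succ] at h1
    rw [Nat.add_mul, one_mul]
    omega

/-- the space spanned by `1` and the `l i` -/
noncomputable def VV {N : ℕ} (l : Fin N → Cc) : Submodule (QC Cc) Cc :=
  Submodule.span (QC Cc) ({1} ∪ Set.range l)

instance {N : ℕ} (l : Fin N → Cc) : FiniteDimensional (QC Cc) (VV l) :=
  FiniteDimensional.span_of_finite (QC Cc) ((Set.finite_singleton _).union (Set.finite_range _))

theorem VV_le {N : ℕ} (l : Fin N → Cc) (halg : ∀ j, l j ∈ Lt) :
    VV l ≤ Lt := by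
  rw [VV, Submodule.span_le]
  rintro z (hz | ⟨j, rfl⟩)
  · rw [Set.mem_singleton_iff] at hz
    rw [hz]
    exact Lt_one
  · exact halg j

theorem one_mem_VV {N : ℕ} (l : Fin N → Cc) : (1 : Cc) ∈ VV l :=
  Submodule.subset_span (Or.inl rfl)

theorem finrank_VV {N : ℕ} (l : Fin N → Cc)
    (hli : LinearIndependent (QC Cc) (Fin.cons 1 l : Fin (N + 1) → Cc)) :
    finrank (QC Cc) (VV l) = N + 1 := by
  have hcons : Set.range (Fin.cons 1 l : Fin (N + 1) → Cc) = {1} ∪ Set.range l := by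
    rw [Fin.range_cons, Set.singleton_union]
  rw [VV, ← hcons, finrank_span_eq_card hli, Fintype.card_fin]

/-- the values of the polynomials of degree at most `m` -/
noncomputable def Val {N : ℕ} (l : Fin N → Cc) (m : ℕ) : Submodule (QC Cc) Cc :=
  (MvPolynomial.restrictTotalDegree (Fin N) (QC Cc) m).map (MvPolynomial.aeval l).toLinearMap

theorem mem_Val {N : ℕ} (l : Fin N → Cc) (m : ℕ) (z : Cc) :
    z ∈ Val l m ↔ ∃ P : MvPolynomial (Fin N) (QC Cc), P.totalDegree ≤ m ∧ MvPolynomial.aeval l P = z := by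
  rw [Val, Submodule.mem_map]
  constructor
  · rintro ⟨P, hP, rfl⟩
    exact ⟨P, (MvPolynomial.mem_restrictTotalDegree _ _ _).mp hP, rfl⟩
  · rintro ⟨P, hP, rfl⟩
    exact ⟨P, (MvPolynomial.mem_restrictTotalDegree _ _ _).mpr hP, rfl⟩

theorem VV_le_Val {N : ℕ} (l : Fin N → Cc) : VV l ≤ Val l 1 := by
  rw [VV, Submodule.span_le]
  rintro z (hz | ⟨j, rfl⟩)
  · rw [Set.mem_singleton_iff] at hz
    rw [hz]
    exact (mem_Val l 1 1).mpr ⟨1, by simp, by simp⟩
  · exact (mem_Val l 1 _).mpr ⟨MvPolynomial.X j, (MvPolynomial.totalDegree_X j).le, by simp⟩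

theorem pow_le_Val {N : ℕ} (l : Fin N → Cc) (m : ℕ) : VV l ^ m ≤ Val l m := by
  induction m with
  | zero =>
    rw [pow_zero, Submodule.one_le]
    exact (mem_Val l 0 1).mpr ⟨1, by simp, by simp⟩
  | succ m ih =>
    rw [pow_succ, Submodule.mul_le]
    intro a ha b hb
    obtain ⟨P, hP, rfl⟩ := (mem_Val l m a).mp (ih ha)
    obtain ⟨Q, hQ, rfl⟩ := (mem_Val l 1 b).mp (VV_le_Val l hb)
    refine (mem_Val l (m + 1) _).mpr ⟨P * Q, ?_, map_mul _ _ _⟩
    exact (MvPolynomial.totalDegree_mul P Q).trans (add_le_add hP hQ)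

instance {N : ℕ} (l : Fin N → Cc) (m : ℕ) : FiniteDimensional (QC Cc) (Val l m) := by
  unfold Val
  infer_instance

/-- **The Hilbert function.** -/
theorem hilbert {N : ℕ} (l : Fin N → Cc) (halg : ∀ j, l j ∈ Lt)
    (hli : LinearIndependent (QC Cc) (Fin.cons 1 l : Fin (N + 1) → Cc)) (m : ℕ) :
    N + 1 + m * ((N + 1) ^ 2 / 4) ≤ finrank (QC Cc) (Val l (m + 1)) := by
  have h1 := finrank_VV l hli
  have hne : VV l ≠ ⊥ := by
    intro h0
    rw [h0, finrank_bot] at h1
    omega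
  have h2 := expand_pow (VV l) (VV l) (VV_le l halg) hne (by omega) m
  rw [h1, ← pow_succ'] at h2
  exact h2.trans (Submodule.finrank_mono (pow_le_Val l (m + 1)))

theorem finrank_restrict (N m : ℕ) :
    finrank (QC Cc) (MvPolynomial.restrictTotalDegree (Fin N) (QC Cc) m) ≤ (N + m).choose m := by
  classical
  set T := (Finset.univ : Finset (Option (Fin N))).finsuppAntidiag m with hT
  have hcard : T.card = (N + m).choose m := by
    rw [hT, Finset.card_finsuppAntidiag_nat_eq_choose]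
    rw [Finset.card_univ, Fintype.card_option, Fintype.card_fin]
    rw [show N + 1 + m - 1 = N + m by omega]
  have hb := MvPolynomial.basisRestrictSupport (QC Cc) {n : Fin N →₀ ℕ | (n.sum fun _ e => e) ≤ m}
  have hfr : finrank (QC Cc) (MvPolynomial.restrictTotalDegree (Fin N) (QC Cc) m) =
      Nat.card {n : Fin N →₀ ℕ | (n.sum fun _ e => e) ≤ m} :=
    Module.finrank_eq_nat_card_basis hb
  rw [hfr, ← hcard, ← Fintype.card_coe, ← Nat.card_eq_fintype_card]
  apply Nat.card_le_card_of_injective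
    (fun s : {n : Fin N →₀ ℕ | (n.sum fun _ e => e) ≤ m} =>
      (⟨s.1.optionElim (m - (s.1.sum fun _ e => e)), by
      rw [hT, Finset.mem_finsuppAntidiag]
      refine ⟨?_, Finset.subset_univ _⟩
      rw [Fintype.sum_option]
      simp only [Finsupp.optionElim_apply_none, Finsupp.optionElim_apply_some]
      have h1 : (s.1.sum fun _ e => e) = ∑ i, s.1 i := Finsupp.sum_fintype _ _ (fun _ => rfl)
      have h2 : (s.1.sum fun _ e => e) ≤ m := s.2
      omega⟩ : T))
  intro s s' h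
  apply Subtype.ext
  ext i
  have h1 := congrArg (fun t : T => (t : Option (Fin N) →₀ ℕ) (some i)) h
  simpa using h1

/-- the space of the relations of degree at most `m` -/
noncomputable def Rel {N : ℕ} (l : Fin N → Cc) (m : ℕ) : Submodule (QC Cc) (MvPolynomial (Fin N) (QC Cc)) :=
  MvPolynomial.restrictTotalDegree (Fin N) (QC Cc) m ⊓ LinearMap.ker (MvPolynomial.aeval l).toLinearMap

theorem gen_dim {K M L : Type*} [Field K] [AddCommGroup M] [Module K M] [AddCommGroup L]
    [Module K L] (R : Submodule K M) [FiniteDimensional K R] (f : M →ₗ[K] L) :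
    finrank K (R ⊓ LinearMap.ker f : Submodule K M) + finrank K (R.map f) = finrank K R := by
  have h1 := LinearMap.finrank_range_add_finrank_ker (f.domRestrict R)
  have h2 : LinearMap.range (f.domRestrict R) = R.map f := LinearMap.range_domRestrict _ _
  have h3 : finrank K (LinearMap.ker (f.domRestrict R)) =
      finrank K (R ⊓ LinearMap.ker f : Submodule K M) := by
    rw [LinearMap.ker_domRestrict]
    have h4 : R ⊓ LinearMap.ker f = (Submodule.comap R.subtype (LinearMap.ker f)).map R.subtype := by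
      rw [Submodule.map_comap_subtype]
    rw [h4]
    exact (LinearEquiv.finrank_eq (Submodule.equivMapOfInjective R.subtype
      R.injective_subtype _))
  rw [h2, h3] at h1
  omega

theorem rel_add_val {N : ℕ} (l : Fin N → Cc) (m : ℕ) :
    finrank (QC Cc) (Rel l m) + finrank (QC Cc) (Val l m) ≤ (N + m).choose m := by
  refine le_trans (le_of_eq ?_) (finrank_restrict (Cc := Cc) N m)
  exact gen_dim (MvPolynomial.restrictTotalDegree (Fin N) (QC Cc) m)
    (MvPolynomial.aeval l : MvPolynomial (Fin N) (QC Cc) →ₐ[(QC Cc)] Cc).toLinearMap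

/-- **Relations.** -/
theorem relations {N : ℕ} (l : Fin N → Cc) (halg : ∀ j, l j ∈ Lt)
    (hli : LinearIndependent (QC Cc) (Fin.cons 1 l : Fin (N + 1) → Cc)) (m : ℕ) :
    finrank (QC Cc) (Rel l (m + 1)) + (N + 1 + m * ((N + 1) ^ 2 / 4)) ≤ (N + (m + 1)).choose (m + 1) :=
  (Nat.add_le_add_left (hilbert l halg hli m) _).trans (rel_add_val l (m + 1))

theorem quadrics {N : ℕ} (l : Fin N → Cc) (halg : ∀ j, l j ∈ Lt)
    (hli : LinearIndependent (QC Cc) (Fin.cons 1 l : Fin (N + 1) → Cc)) : finrank (QC Cc) (Rel l 2) ≤ N ^ 2 / 4 := by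
  have h := relations l halg hli 1
  rw [show N + (1 + 1) = N + 2 by rfl, show (1 + 1 : ℕ) = 2 by rfl] at h
  have h2 : (N + 2).choose 2 = (N + 2) * (N + 1) / 2 := by
    rw [Nat.choose_two_right]
    rfl
  rw [h2] at h
  rcases Nat.even_or_odd' N with ⟨k, rfl | rfl⟩
  · have e1 : (2 * k + 2) * (2 * k + 1) / 2 = (k + 1) * (2 * k + 1) := by
      rw [show (2 * k + 2) * (2 * k + 1) = 2 * ((k + 1) * (2 * k + 1)) by ring]; omega
    have e2 : (2 * k + 1) ^ 2 / 4 = k * k + k := by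
      rw [show (2 * k + 1) ^ 2 = 4 * (k * k + k) + 1 by ring]; omega
    have e3 : (2 * k) ^ 2 / 4 = k * k := by
      rw [show (2 * k) ^ 2 = 4 * (k * k) by ring]; omega
    rw [e1, e2] at h
    rw [e3]
    nlinarith
  · have e1 : (2 * k + 1 + 2) * (2 * k + 1 + 1) / 2 = (2 * k + 3) * (k + 1) := by
      rw [show (2 * k + 1 + 2) * (2 * k + 1 + 1) = 2 * ((2 * k + 3) * (k + 1)) by ring]; omega
    have e2 : (2 * k + 1 + 1) ^ 2 / 4 = (k + 1) * (k + 1) := by
      rw [show (2 * k + 1 + 1) ^ 2 = 4 * ((k + 1) * (k + 1)) by ring]; omega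
    have e3 : (2 * k + 1) ^ 2 / 4 = k * k + k := by
      rw [show (2 * k + 1) ^ 2 = 4 * (k * k + k) + 1 by ring]; omega
    rw [e1, e2] at h
    rw [e3]
    nlinarith

theorem self_mul (U : Submodule (QC Cc) Cc) [FiniteDimensional (QC Cc) U] :
    finrank (QC Cc) U ≤ finrank (QC Cc) (U * U : Submodule (QC Cc) Cc) := by
  have := fd_mul U U
  by_cases hU : U = ⊥
  · rw [hU, finrank_bot]
    exact Nat.zero_le _
  · obtain ⟨u, huU, hu⟩ := Submodule.exists_mem_ne_zero_of_ne_bot hU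
    have h1 : U.map (LinearMap.mulLeft (QC Cc) u) ≤ U * U := by
      rintro _ ⟨x, hx, rfl⟩
      exact Submodule.mul_mem_mul huU hx
    have h2 : finrank (QC Cc) (U.map (LinearMap.mulLeft (QC Cc) u)) = finrank (QC Cc) U :=
      LinearEquiv.finrank_eq (Submodule.equivMapOfInjective (LinearMap.mulLeft (QC Cc) u)
        (fun a b hab => mul_left_cancel₀ hu hab) U).symm
    rw [← h2]
    exact Submodule.finrank_mono h1

/-- **Logarithms in a space of small doubling.** -/
theorem sparse (U : Submodule (QC Cc) Cc) [FiniteDimensional (QC Cc) U] :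
    finrank (QC Cc) U + finrank (QC Cc) (U ⊓ Lt : Submodule (QC Cc) Cc) ^ 2 / 4 ≤
      finrank (QC Cc) (U * U : Submodule (QC Cc) Cc) := by
  have := fd_mul U U
  have : FiniteDimensional (QC Cc) (U ⊓ Lt : Submodule (QC Cc) Cc) :=
    Submodule.finiteDimensional_of_le inf_le_left
  by_cases hW : (U ⊓ Lt : Submodule (QC Cc) Cc) = ⊥
  · rw [hW, finrank_bot]
    simpa using self_mul U
  · have h1 : finrank (QC Cc) (U ⊓ Lt : Submodule (QC Cc) Cc) ≤ finrank (QC Cc) U :=
      Submodule.finrank_mono inf_le_left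
    refine (expand U (U ⊓ Lt) inf_le_right hW (by omega)).trans (Submodule.finrank_mono ?_)
    exact mul_le_mul' le_rfl inf_le_left

theorem one_mem_Val {t : ℕ} (θ : Fin t → Cc) (m : ℕ) : (1 : Cc) ∈ Val θ m :=
  (mem_Val θ m 1).mpr ⟨1, by simp, by simp⟩

theorem Val_mul {t : ℕ} (θ : Fin t → Cc) (m k : ℕ) : Val θ m * Val θ k ≤ Val θ (m + k) := by
  rw [Submodule.mul_le]
  intro a ha b hb
  obtain ⟨P, hP, rfl⟩ := (mem_Val θ m a).mp ha
  obtain ⟨Q, hQ, rfl⟩ := (mem_Val θ k b).mp hb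
  exact (mem_Val θ (m + k) _).mpr ⟨P * Q, (MvPolynomial.totalDegree_mul P Q).trans
    (add_le_add hP hQ), map_mul _ _ _⟩

theorem VV_le_of {n : ℕ} (l : Fin n → Cc) (U : Submodule (QC Cc) Cc) (h1 : (1 : Cc) ∈ U)
    (hl : ∀ j, l j ∈ U) : VV l ≤ U := by
  rw [VV, Submodule.span_le]
  rintro z (hz | ⟨j, rfl⟩)
  · rw [Set.mem_singleton_iff] at hz
    rw [hz]
    exact h1
  · exact hl j

/-- general form -/
theorem in_space {n : ℕ} (l : Fin n → Cc) (halg : ∀ j, l j ∈ Lt)
    (hli : LinearIndependent (QC Cc) (Fin.cons 1 l : Fin (n + 1) → Cc)) (U Z : Submodule (QC Cc) Cc) [FiniteDimensional (QC Cc) U]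
    [FiniteDimensional (QC Cc) Z] (h1 : (1 : Cc) ∈ U) (hl : ∀ j, l j ∈ U) (hZ : U * U ≤ Z) :
    finrank (QC Cc) U + (n + 1) ^ 2 / 4 ≤ finrank (QC Cc) Z ∧ n + 1 ≤ finrank (QC Cc) U := by
  have h2 := finrank_VV l hli
  have h3 := VV_le_of l U h1 hl
  have h4 : n + 1 ≤ finrank (QC Cc) U := by
    rw [← h2]
    exact Submodule.finrank_mono h3
  have hne : VV l ≠ ⊥ := by
    intro h0
    rw [h0, finrank_bot] at h2
    omega
  have h5 := expand U (VV l) (VV_le l halg) hne (by omega)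
  rw [h2] at h5
  exact ⟨h5.trans (Submodule.finrank_mono ((mul_le_mul' le_rfl h3).trans hZ)), h4⟩

/-- **Polynomials of degree at most `m` in `t` numbers.** -/
theorem poly_values {t n : ℕ} (θ : Fin t → Cc) (m : ℕ) (l : Fin n → Cc)
    (halg : ∀ j, l j ∈ Lt) (hli : LinearIndependent (QC Cc) (Fin.cons 1 l : Fin (n + 1) → Cc))
    (hl : ∀ j, ∃ P : MvPolynomial (Fin t) (QC Cc), P.totalDegree ≤ m ∧ MvPolynomial.aeval θ P = l j) :
    finrank (QC Cc) (Val θ m) + (n + 1) ^ 2 / 4 ≤ finrank (QC Cc) (Val θ (2 * m)) ∧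
      (n + 1) + (n + 1) ^ 2 / 4 ≤ (t + 2 * m).choose t := by
  have h1 := in_space l halg hli (Val θ m) (Val θ (2 * m)) (one_mem_Val θ m)
    (fun j => (mem_Val θ m _).mpr (hl j)) (by rw [two_mul]; exact Val_mul θ m m)
  refine ⟨h1.1, ?_⟩
  have h2 := rel_add_val θ (2 * m)
  have h3 : (t + 2 * m).choose (2 * m) = (t + 2 * m).choose t := Nat.choose_symm_add.symm
  omega

/-- powers of one number -/
noncomputable def P1 (θ : Cc) (m : ℕ) : Submodule (QC Cc) Cc :=
  Submodule.span (QC Cc) (Set.range fun k : Fin (m + 1) => θ ^ (k : ℕ))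

instance (θ : Cc) (m : ℕ) : FiniteDimensional (QC Cc) (P1 θ m) :=
  FiniteDimensional.span_of_finite (QC Cc) (Set.finite_range _)

theorem pow_mem_P1 (θ : Cc) (m k : ℕ) (hk : k ≤ m) : θ ^ k ∈ P1 θ m :=
  Submodule.subset_span ⟨⟨k, Nat.lt_succ_of_le hk⟩, rfl⟩

theorem P1_mul (θ : Cc) (m : ℕ) : P1 θ m * P1 θ m ≤ P1 θ (2 * m) := by
  rw [P1, P1, Submodule.span_mul_span, Submodule.span_le]
  rintro _ ⟨_, ⟨a, rfl⟩, _, ⟨b, rfl⟩, rfl⟩
  change θ ^ (a : ℕ) * θ ^ (b : ℕ) ∈ P1 θ (2 * m)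
  rw [← pow_add]
  exact pow_mem_P1 θ _ _ (by omega)

theorem finrank_P1_le (θ : Cc) (m : ℕ) : finrank (QC Cc) (P1 θ m) ≤ m + 1 := by
  have := finrank_range_le_card (R := (QC Cc)) (fun k : Fin (m + 1) => θ ^ (k : ℕ))
  rwa [Fintype.card_fin] at this

theorem aeval_mem_P1 (θ : Cc) (m : ℕ) (P : Polynomial (QC Cc)) (hP : P.natDegree ≤ m) :
    Polynomial.aeval θ P ∈ P1 θ m := by
  rw [Polynomial.aeval_eq_sum_range' (Nat.lt_succ_of_le hP)]
  refine Submodule.sum_mem _ fun k hk => Submodule.smul_mem _ _ (pow_mem_P1 θ m k ?_)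
  exact Nat.lt_succ_iff.mp (Finset.mem_range.mp hk)

/-- powers of a transcendental number are linearly independent -/
lemma pow_indep {t : Cc} (ht : Transcendental ℚ t) (N : ℕ) :
    LinearIndependent (QC Cc) (fun k : Fin N => t ^ (k : ℕ)) := by
  classical
  rw [Fintype.linearIndependent_iff]
  intro c hc k
  set P : Polynomial (QC Cc) := ∑ k : Fin N, Polynomial.monomial (k : ℕ) (c k) with hPdef
  have hP : Polynomial.aeval t P = 0 := by
    rw [hPdef, map_sum, ← hc]
    apply Finset.sum_congr rfl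
    intro i _
    rw [Polynomial.aeval_monomial]
    rfl
  have h0 : P = 0 := by
    by_contra hne
    have h1 : IsAlgebraic (QC Cc) t := ⟨P, hne, hP⟩
    have : Algebra.IsAlgebraic ℚ (QC Cc) := algebraicClosure.isAlgebraic ℚ Cc
    exact ht (h1.restrictScalars ℚ)
  have h1 : P.coeff (k : ℕ) = c k := by
    rw [hPdef, Polynomial.finsetSum_coeff, Finset.sum_eq_single k]
    · rw [Polynomial.coeff_monomial, if_pos rfl]
    · intro j _ hj
      rw [Polynomial.coeff_monomial, if_neg (fun h => hj (Fin.ext h))]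
    · intro h; exact absurd (Finset.mem_univ _) h
  rw [← h1, h0, Polynomial.coeff_zero]

theorem finrank_P1 (θ : Cc) (hθ : Transcendental ℚ θ) (m : ℕ) : finrank (QC Cc) (P1 θ m) = m + 1 := by
  rw [P1, finrank_span_eq_card (pow_indep hθ (m + 1)), Fintype.card_fin]

theorem finrank_P1_alg (θ : Cc) (hθ : IsAlgebraic ℚ θ) (m : ℕ) : finrank (QC Cc) (P1 θ m) ≤ 1 := by
  have h3 : P1 θ m ≤ Submodule.span (QC Cc) (Set.range fun _ : Fin 1 => (1 : Cc)) := by
    rw [P1, Submodule.span_le]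
    rintro _ ⟨k, rfl⟩
    have h4 : θ ^ (k : ℕ) = (⟨θ, mem_QC.mpr hθ⟩ ^ (k : ℕ) : (QC Cc)) • (1 : Cc) := by
      rw [Algebra.smul_def, mul_one]
      rfl
    change θ ^ (k : ℕ) ∈ Submodule.span (QC Cc) (Set.range fun _ : Fin 1 => (1 : Cc))
    rw [h4]
    exact Submodule.smul_mem _ _ (Submodule.subset_span ⟨0, rfl⟩)
  have : FiniteDimensional (QC Cc) (Submodule.span (QC Cc) (Set.range fun _ : Fin 1 => (1 : Cc))) :=
    FiniteDimensional.span_of_finite (QC Cc) (Set.finite_range _)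
  refine (Submodule.finrank_mono h3).trans ?_
  have := finrank_range_le_card (R := (QC Cc)) (fun _ : Fin 1 => (1 : Cc))
  rwa [Fintype.card_fin] at this

/-- **Polynomials in one number.** -/
theorem one_number {n : ℕ} (θ : Cc) (m : ℕ) (l : Fin n → Cc)
    (halg : ∀ j, l j ∈ Lt) (hli : LinearIndependent (QC Cc) (Fin.cons 1 l : Fin (n + 1) → Cc))
    (hl : ∀ j, ∃ P : Polynomial (QC Cc), P.natDegree ≤ m ∧ Polynomial.aeval θ P = l j) :
    (n + 1) ^ 2 / 4 ≤ m := by
  have h1 := in_space l halg hli (P1 θ m) (P1 θ (2 * m))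
    (by simpa using pow_mem_P1 θ m 0 (Nat.zero_le _))
    (fun j => by obtain ⟨P, hP, h⟩ := hl j; rw [← h]; exact aeval_mem_P1 θ m P hP) (P1_mul θ m)
  by_cases hθ : IsAlgebraic ℚ θ
  · have h2 := finrank_P1_alg θ hθ m
    have h3 : n = 0 := by omega
    rw [h3]
    exact Nat.zero_le _
  · have h2 := finrank_P1 θ hθ m
    have h3 := finrank_P1_le θ (2 * m)
    omega

end Pool.Agent.L7h6.PF
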