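import Mathlib
import Pool.Agent.H351R3.Log.Dens2
import Pool.Agent.Y918.OL.Cube

set_option autoImplicit false

/-!
# Random tuples of elements of a space satisfy only linear relations modulo the space

The same statements as in `Pool.Agent.Y918.OL.Only`, for an arbitrary pair of fields instead of the
complex numbers and the algebraic numbers.
-/

namespace Pool.Agent.L7h6.PF.OL

open Finset Module MvPolynomial Pool.Agent.H351R3.Log
open Pool.Agent.H297R2 (optEquiv)
open Pool.Agent.Y918.OL (cube_count li_dirs)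

variable {κ E : Type} [Field κ] [CharZero κ] [Field E] [CharZero E] [Algebra κ E]

theorem rat_mul_mem (V : Submodule κ E) {z : E} (hz : z ∈ V) (q : ℚ) : (q : E) * z ∈ V := by
  have h := V.smul_mem (q : κ) hz
  rwa [Algebra.smul_def, map_ratCast] at h

theorem sum_mem_of_logs {V : Submodule κ E} {k : ℕ} {lam : Fin k → E}
    (hV : ∀ i, lam i ∈ V) (P : Fin k → ℚ) :
    ∑ i, (P i : E) * lam i ∈ V :=
  V.sum_mem fun i _ => rat_mul_mem V (hV i) (P i)

open Classical in
/-- One random combination of logarithms. -/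
theorem one (κ E : Type) [Field κ] [CharZero κ] [Field E] [CharZero E] [Algebra κ E]
    (σ : Type) [Fintype σ] (D c : ℕ) : ∃ (k₀ C : ℕ) (δ : ℝ), 0 < δ ∧ ∀ k ≥ k₀,
    ∀ lam : Fin k → E, LinearIndependent κ lam →
    ∀ A : Finset ℚ, A.Nonempty → ∀ V : Submodule κ E, (∀ i, lam i ∈ V) → KBd V c → ∀ ζ ∈ V,
    ∀ (par : σ → Prop) (t : σ → E), NLP V par D t →
    (((Fintype.piFinset fun _ : Fin k => A).filter (fun P =>
      ¬ NLP V (opar par) D (fun o : Option σ => o.elim (ζ + ∑ i, (P i : E) * lam i) t))).card : ℝ) ≤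
      C * (A.card : ℝ) ^ ((k : ℝ) - δ * k) := by
  obtain ⟨r, hr⟩ := key2 (κ := κ) (C := E) σ D c
  obtain ⟨k₀, C, δ, hδ, h⟩ := cube_count r
  refine ⟨k₀, C, δ, hδ, fun k hk lam hlam A hA V hLV hV ζ hζ par t ht => ?_⟩
  have hmain := h k hk A hA (fun P =>
    ¬ NLP V (opar par) D (fun o : Option σ => o.elim (ζ + ∑ i, (P i : E) * lam i) t)) ?_
  · convert hmain
  intro β u hu hd
  have hli := li_dirs hlam u hu hd
  let w : Fin r → V := fun i => ⟨∑ s, (u i s : E) * lam s, sum_mem_of_logs hLV (u i)⟩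
  have hw : LinearIndependent κ w := by
    apply LinearIndependent.of_comp V.subtype
    exact hli
  obtain ⟨S, hS⟩ := hr V hV par t ht
    ⟨ζ + ∑ s, (β s : E) * lam s, V.add_mem hζ (sum_mem_of_logs hLV β)⟩ w hw
  refine ⟨S, ?_⟩
  rw [not_not]
  convert hS using 4
  push_cast
  rw [add_assoc]
  congr 1
  rw [Finset.sum_comm, ← Finset.sum_add_distrib]
  refine Finset.sum_congr rfl fun s _ => ?_
  rw [Pi.add_apply, Finset.sum_apply]
  push_cast
  rw [add_mul, Finset.sum_mul]

open Classical in
/-- Random tuples of combinations of logarithms. -/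
theorem tuples (κ E : Type) [Field κ] [CharZero κ] [Field E] [CharZero E] [Algebra κ E]
    (n : ℕ) : ∀ (σ : Type) [Fintype σ] (D c : ℕ), ∃ (k₀ C : ℕ) (δ : ℝ), 0 < δ ∧
    ∀ k ≥ k₀, ∀ lam : Fin n → Fin k → E,
    (∀ j, LinearIndependent κ (lam j)) → ∀ A : Finset ℚ, A.Nonempty →
    ∀ V : Submodule κ E, (∀ j i, lam j i ∈ V) → KBd V c → ∀ ζ : Fin n → E, (∀ j, ζ j ∈ V) →
    ∀ (par : σ → Prop) (t : σ → E), NLP V par D t →
    (((Fintype.piFinset fun _ : Fin n => Fintype.piFinset fun _ : Fin k => A).filter (fun P =>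
      ¬ NLP V (spar (Fin n) par) D
        (Sum.elim t (fun j => ζ j + ∑ i, (P j i : E) * lam j i)))).card : ℝ) ≤
      C * (A.card : ℝ) ^ ((n * k : ℝ) - δ * k) := by
  induction n with
  | zero =>
    intro σ _ D c
    refine ⟨0, 0, 1, one_pos, fun k _ lam _ A _ V _ _ ζ _ par t ht => ?_⟩
    rw [Finset.filter_false_of_mem]
    · simp
    · intro P _
      rw [not_not, ← NLP.reindex_iff V _ (Equiv.sumEmpty σ (Fin 0)).symm]
      exact ht
  | succ n ih =>
    intro σ _ D c
    obtain ⟨k₁, C₁, δ₁, hδ₁, h₁⟩ := one κ E σ D c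
    obtain ⟨k₂, C₂, δ₂, hδ₂, h₂⟩ := ih (Option σ) D c
    refine ⟨max k₁ k₂, C₁ + C₂, min δ₁ δ₂, lt_min hδ₁ hδ₂,
      fun k hk lam hlam A hA V hLV hV ζ hζ par t ht => ?_⟩
    obtain ⟨a, ha⟩ : ∃ a : ℝ, a = (A.card : ℝ) := ⟨_, rfl⟩
    have ha1 : 1 ≤ a := by
      rw [ha]
      exact_mod_cast hA.card_pos
    have ha0 : 0 < a := by linarith
    set X : Finset (Fin k → ℚ) := Fintype.piFinset fun _ : Fin k => A with hX
    have hXc : (X.card : ℝ) = a ^ (k : ℝ) := by
      rw [hX, Fintype.card_piFinset_const, ha]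
      push_cast
      rw [Real.rpow_natCast]
    set bad : (Fin (n + 1) → Fin k → ℚ) → Prop := fun P =>
      ¬ NLP V (spar (Fin (n + 1)) par) D
        (Sum.elim t (fun j => ζ j + ∑ i, (P j i : E) * lam j i)) with hbad
    set B := (Fintype.piFinset fun _ : Fin (n + 1) => X).filter bad with hB
    set H := X.filter (fun P =>
      ¬ NLP V (opar par) D (fun o : Option σ => o.elim (ζ 0 + ∑ i, (P i : E) * lam 0 i) t)) with hH
    have hHc : (H.card : ℝ) ≤ C₁ * a ^ ((k : ℝ) - δ₁ * k) := by
      rw [ha]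
      exact h₁ k (le_trans (le_max_left _ _) hk) (lam 0) (hlam 0) A hA V (hLV 0) hV (ζ 0)
        (hζ 0) par t ht
    have hfib : B.card = ∑ p ∈ X, (B.filter (fun P => P 0 = p)).card := by
      apply Finset.card_eq_sum_card_fiberwise
      intro P hP
      exact Fintype.mem_piFinset.1 (Finset.mem_filter.1 hP).1 0
    set Yn : Finset (Fin n → Fin k → ℚ) := Fintype.piFinset fun _ => X with hYn
    have hYc : (Yn.card : ℝ) = a ^ (n * k : ℝ) := by
      rw [hYn, Fintype.card_piFinset_const]
      push_cast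
      rw [hXc, ← Real.rpow_natCast, ← Real.rpow_mul ha0.le]
      congr 1
      ring
    have hinj : ∀ p, Set.InjOn (fun P : Fin (n + 1) → Fin k → ℚ => Fin.tail P)
        (B.filter (fun P => P 0 = p)) := by
      intro p P hP P' hP' hPP
      rw [Finset.mem_coe, Finset.mem_filter] at hP hP'
      rw [← Fin.cons_self_tail P, ← Fin.cons_self_tail P', hP.2, hP'.2]
      exact congrArg _ hPP
    have hall : ∀ p ∈ X, ((B.filter (fun P => P 0 = p)).card : ℝ) ≤ a ^ (n * k : ℝ) := by
      intro p _
      rw [← hYc]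
      apply Nat.cast_le.2
      refine Finset.card_le_card_of_injOn (fun P => Fin.tail P) ?_ (hinj p)
      intro P hP
      rw [Finset.mem_coe, Finset.mem_filter, hB, Finset.mem_filter] at hP
      have h3 := Fintype.mem_piFinset.1 hP.1.1
      exact Fintype.mem_piFinset.2 (fun j => h3 j.succ)
    have hgood : ∀ p ∈ X, p ∉ H → ((B.filter (fun P => P 0 = p)).card : ℝ) ≤
        C₂ * a ^ ((n * k : ℝ) - δ₂ * k) := by
      intro p hp hpH
      have hta : NLP V (opar par) D
          (fun o : Option σ => o.elim (ζ 0 + ∑ i, (p i : E) * lam 0 i) t) := by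
        by_contra h
        exact hpH (Finset.mem_filter.2 ⟨hp, h⟩)
      have h4 := h₂ k (le_trans (le_max_right _ _) hk) (fun j => lam j.succ)
        (fun j => hlam j.succ) A hA V (fun j => hLV j.succ) hV (fun j => ζ j.succ)
        (fun j => hζ j.succ) (opar par) _ hta
      rw [← ha] at h4
      refine le_trans (Nat.cast_le.2 ?_) h4
      refine Finset.card_le_card_of_injOn (fun P => Fin.tail P) ?_ (hinj p)
      intro P hP
      rw [Finset.mem_coe, Finset.mem_filter, hB, Finset.mem_filter] at hP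
      obtain ⟨⟨hPA, hTi⟩, hP0⟩ := hP
      have h6 := Fintype.mem_piFinset.1 hPA
      rw [Finset.mem_coe, Finset.mem_filter]
      refine ⟨Fintype.mem_piFinset.2 (fun j => h6 j.succ), ?_⟩
      intro h7
      apply hTi
      rw [← NLP.reindex_iff V _ (optEquiv σ n)]
      have hpar : (spar (Fin (n + 1)) par) ∘ optEquiv σ n = spar (Fin n) (opar par) := by
        funext s
        rcases s with (_ | i) | j <;> simp [optEquiv, spar, opar]
      have hval : (Sum.elim t (fun j => ζ j + ∑ i, (P j i : E) * lam j i)) ∘ optEquiv σ n =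
          Sum.elim (fun o : Option σ => o.elim (ζ 0 + ∑ i, (p i : E) * lam 0 i) t)
            (fun j => ζ j.succ + ∑ i, (Fin.tail P j i : E) * lam j.succ i) := by
        funext s
        rcases s with (_ | i) | j
        · simp [optEquiv, hP0]
        · simp [optEquiv]
        · simp [optEquiv, Fin.tail]
      rw [hval, hpar]
      exact h7
    rw [hfib, ← ha]
    push_cast
    rw [← Finset.sum_filter_add_sum_filter_not X (fun p => p ∈ H)]
    have h1 : ∑ p ∈ X.filter (fun p => p ∈ H), ((B.filter (fun P => P 0 = p)).card : ℝ) ≤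
        C₁ * a ^ ((k : ℝ) - δ₁ * k) * a ^ (n * k : ℝ) := by
      refine (Finset.sum_le_sum (fun p hp => hall p (Finset.mem_filter.1 hp).1)).trans ?_
      rw [Finset.sum_const, nsmul_eq_mul]
      have h3 : ((X.filter (fun p => p ∈ H)).card : ℝ) ≤ (H.card : ℝ) := by
        have h4 : (X.filter (fun p => p ∈ H)).card ≤ H.card := by
          refine Finset.card_le_card ?_
          intro p hp
          exact (Finset.mem_filter.1 hp).2
        exact_mod_cast h4
      exact mul_le_mul_of_nonneg_right (h3.trans hHc) (Real.rpow_nonneg ha0.le _)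
    have h2 : ∑ p ∈ X.filter (fun p => ¬ p ∈ H), ((B.filter (fun P => P 0 = p)).card : ℝ) ≤
        a ^ (k : ℝ) * (C₂ * a ^ ((n * k : ℝ) - δ₂ * k)) := by
      refine (Finset.sum_le_sum (fun p hp => hgood p (Finset.mem_filter.1 hp).1
        (Finset.mem_filter.1 hp).2)).trans ?_
      rw [Finset.sum_const, nsmul_eq_mul, ← hXc]
      have h3 : ((X.filter (fun p => ¬ p ∈ H)).card : ℝ) ≤ (X.card : ℝ) := by
        exact_mod_cast Finset.card_le_card (Finset.filter_subset _ _)
      exact mul_le_mul_of_nonneg_right h3 (by positivity)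
    have hk0 : (0 : ℝ) ≤ k := Nat.cast_nonneg _
    have h3 : C₁ * a ^ ((k : ℝ) - δ₁ * k) * a ^ (n * k : ℝ) ≤
        C₁ * a ^ (((n : ℝ) + 1) * k - min δ₁ δ₂ * k) := by
      rw [mul_assoc, ← Real.rpow_add ha0]
      apply mul_le_mul_of_nonneg_left _ (Nat.cast_nonneg _)
      apply Real.rpow_le_rpow_of_exponent_le ha1
      have := mul_le_mul_of_nonneg_right (min_le_left δ₁ δ₂) hk0
      linarith
    have h4 : a ^ (k : ℝ) * (C₂ * a ^ ((n * k : ℝ) - δ₂ * k)) ≤
        C₂ * a ^ (((n : ℝ) + 1) * k - min δ₁ δ₂ * k) := by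
      rw [mul_left_comm, ← Real.rpow_add ha0]
      apply mul_le_mul_of_nonneg_left _ (Nat.cast_nonneg _)
      apply Real.rpow_le_rpow_of_exponent_le ha1
      have := mul_le_mul_of_nonneg_right (min_le_right δ₁ δ₂) hk0
      linarith
    have h5 := add_le_add (h1.trans h3) (h2.trans h4)
    rw [← add_mul] at h5
    exact h5

theorem decompose {κ : Type} [Field κ] {l k : ℕ} (P : MvPolynomial (Fin l ⊕ Fin k) κ)
    (h : ∀ s ∈ P.support, Alw (spar (Fin k) (fun _ : Fin l => True)) s) :
    ∃ (P₀ : MvPolynomial (Fin l) (κ)) (c : Fin k → κ),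
      P = rename Sum.inl P₀ + ∑ j, C (c j) * X (Sum.inr j) := by
  classical
  set c : Fin k → κ := fun j => coeff (Finsupp.single (Sum.inr j) 1) P with hc
  set Q := P - ∑ j, C (c j) * X (Sum.inr j) with hQ
  have hcoef : ∀ s, coeff s Q = coeff s P -
      ∑ j, c j * (if Finsupp.single (Sum.inr j) 1 = s then 1 else 0) := by
    intro s
    rw [hQ, coeff_sub, coeff_sum]
    simp only [coeff_C_mul, coeff_X]
  have hmem : Q ∈ Sq (κ) (Fin l) (∅ : Finset (Fin k)) Q.totalDegree := by
    intro s hs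
    have hz : ∀ j, s (Sum.inr j) = 0 := by
      by_cases h1 : ∃ j : Fin k, Finsupp.single (Sum.inr j) 1 = s
      · exfalso
        obtain ⟨j, rfl⟩ := h1
        have h2 := hcoef (Finsupp.single (Sum.inr j) 1)
        rw [Finset.sum_eq_single j] at h2
        · rw [if_pos rfl, mul_one, hc, sub_self] at h2
          exact (MvPolynomial.mem_support_iff.1 hs) h2
        · intro i _ hij
          rw [if_neg, mul_zero]
          intro h3
          have := Finsupp.single_left_injective one_ne_zero h3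
          exact hij (Sum.inr_injective this)
        · intro h3; exact absurd (Finset.mem_univ _) h3
      · push Not at h1
        have h2 := hcoef s
        rw [Finset.sum_eq_zero (fun j _ => by rw [if_neg (h1 j), mul_zero]), sub_zero] at h2
        have h3 : s ∈ P.support := by
          rw [MvPolynomial.mem_support_iff, ← h2]
          exact MvPolynomial.mem_support_iff.1 hs
        rcases h s h3 with h4 | ⟨i, hi, h4⟩
        · intro j
          exact h4 (Sum.inr j) (fun h => h)
        · exfalso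
          rcases i with i | j
          · exact hi trivial
          · exact h1 j h4.symm
    refine ⟨(totalDegree_le_iff_mem _ _).1 le_rfl s hs, ?_, fun j _ => hz j⟩
    intro j
    rw [hz j]
    exact Nat.zero_le _
  obtain ⟨P₀, hP₀, _⟩ := Sq_empty hmem
  refine ⟨P₀, c, ?_⟩
  rw [← hP₀, hQ, sub_add_cancel]

end Pool.Agent.L7h6.PF.OL
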